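import Pool.Agent.W8.KU.Stm

/-! Project KU: images of the cells and of the spheres -/

open scoped Topology ContDiff
open MeasureTheory Metric

namespace Pool.Agent.W597.KU

open Pool.Agent.W8.KU

theorem img (f : E3 → E3) (z : E3) (l : ℝ) (hl : 0 < l) (Q : ℝ → Prop)
    (hf : ∀ x, Q (dist x z) → f x = z + l • (x - z)) :
    f '' {x | Q (dist x z)} = {y | Q (dist y z / l)} := by
  ext y
  constructor
  · rintro ⟨x, hx, rfl⟩
    have h1 : dist (f x) z / l = dist x z := by
      rw [hf x hx, dist_eq_norm, add_sub_cancel_left, norm_smul, Real.norm_eq_abs, abs_of_pos hl,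
        dist_eq_norm]
      field_simp
    show Q (dist (f x) z / l)
    rw [h1]
    exact hx
  · intro hy
    have h1 : dist (z + l⁻¹ • (y - z)) z = dist y z / l := by
      rw [dist_eq_norm, add_sub_cancel_left, norm_smul, Real.norm_eq_abs,
        abs_of_pos (inv_pos.2 hl), dist_eq_norm]
      field_simp
    have h2 : Q (dist (z + l⁻¹ • (y - z)) z) := by
      rw [h1]
      exact hy
    refine ⟨z + l⁻¹ • (y - z), h2, ?_⟩
    rw [hf _ h2, add_sub_cancel_left, smul_smul, mul_inv_cancel₀ hl.ne', one_smul,
      add_sub_cancel]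

theorem Img_proof : Img := by
  intro hR hV t ht hb
  obtain ⟨hV1, hV2, hV3, -, hV5⟩ := hV
  obtain ⟨-, -, -, ha0, hb0, hc0, hae, hbe, hce, -⟩ := hR.2 t (lt_trans ht (by norm_num))
  have hae' := abs_le.1 (hae.trans ht.le)
  have hbe' := abs_le.1 (hbe.trans ht.le)
  have hce' := abs_le.1 (hce.trans ht.le)
  have la : 0 < ra t / 2 := by positivity
  have lb : 0 < rb t / 6 := by positivity
  have lc : 0 < rc t / 3 := by positivity
  have fc : ∀ x : E3, dist x 0 ≤ 4 → Ph t x = 0 + (rc t / 3) • (x - 0) := by
    intro x hx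
    rw [dist_zero_right] at hx
    rw [hV2 t x hx, zero_add, sub_zero]
  -- images
  have i1 : Ph t '' ball P0 2 = ball P0 (ra t) := by
    have h := img (Ph t) P0 (ra t / 2) la (fun d => d < 2) fun x hx => hV1 t x (by linarith)
    have e : {y : E3 | dist y P0 / (ra t / 2) < 2} = ball P0 (ra t) := by
      ext y
      rw [Set.mem_ofPred_eq, mem_ball, div_lt_iff₀ la]
      ring_nf
    rw [e] at h
    exact h
  have i2 : Ph t '' sphere P0 2 = sphere P0 (ra t) := by
    have h := img (Ph t) P0 (ra t / 2) la (fun d => d = 2) fun x hx => hV1 t x (by linarith)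
    have e : {y : E3 | dist y P0 / (ra t / 2) = 2} = sphere P0 (ra t) := by
      ext y
      rw [Set.mem_ofPred_eq, mem_sphere, div_eq_iff la.ne']
      ring_nf
    rw [e] at h
    exact h
  have i3 : Ph t '' ball 0 3 = ball 0 (rc t) := by
    have h := img (Ph t) 0 (rc t / 3) lc (fun d => d < 3) fun x hx => fc x (by linarith)
    have e : {y : E3 | dist y 0 / (rc t / 3) < 3} = ball 0 (rc t) := by
      ext y
      rw [Set.mem_ofPred_eq, mem_ball, div_lt_iff₀ lc]
      ring_nf
    rw [e] at h
    exact h
  have i4 : Ph t '' closedBall 0 3 = closedBall 0 (rc t) := by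
    have h := img (Ph t) 0 (rc t / 3) lc (fun d => d ≤ 3) fun x hx => fc x (by linarith)
    have e : {y : E3 | dist y 0 / (rc t / 3) ≤ 3} = closedBall 0 (rc t) := by
      ext y
      rw [Set.mem_ofPred_eq, mem_closedBall, div_le_iff₀ lc]
      ring_nf
    rw [e] at h
    exact h
  have i5 : Ph t '' sphere 0 3 = sphere 0 (rc t) := by
    have h := img (Ph t) 0 (rc t / 3) lc (fun d => d = 3) fun x hx => fc x (by linarith)
    have e : {y : E3 | dist y 0 / (rc t / 3) = 3} = sphere 0 (rc t) := by
      ext y
      rw [Set.mem_ofPred_eq, mem_sphere, div_eq_iff lc.ne']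
      ring_nf
    rw [e] at h
    exact h
  have i6 : Ph t '' sphere 0 6 = sphere 0 (rb t) := by
    have h := img (Ph t) 0 (rb t / 6) lb (fun d => d = 6) fun x hx => by
      have hx' : ‖x‖ = 6 := by rw [← dist_zero_right]; exact hx
      rw [hV3 t x (by linarith) (by linarith), zero_add, sub_zero]
    have e : {y : E3 | dist y 0 / (rb t / 6) = 6} = sphere 0 (rb t) := by
      ext y
      rw [Set.mem_ofPred_eq, mem_sphere, div_eq_iff lb.ne']
      ring_nf
    rw [e] at h
    exact h
  have claim : ∀ x : E3, ‖Ph t x‖ < rb t ↔ ‖x‖ < 6 := by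
    intro x
    have hd := hV5 hR t x ht
    rw [dist_eq_norm] at hd
    by_cases h5 : ‖x‖ < 5
    · have h6 : ‖Ph t x‖ ≤ ‖Ph t x - x‖ + ‖x‖ := by
        simpa using norm_add_le (Ph t x - x) x
      constructor
      · intro _
        linarith
      · intro _
        linarith
    · by_cases h7 : 7 < ‖x‖
      · have h6 : ‖x‖ ≤ ‖Ph t x - x‖ + ‖Ph t x‖ := by
          have := norm_sub_le (Ph t x) (Ph t x - x)
          rw [sub_sub_cancel] at this
          linarith
        constructor
        · intro h
          linarith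
        · intro h
          linarith
      · rw [hV3 t x (not_lt.1 h5) (not_lt.1 h7), norm_smul, Real.norm_eq_abs, abs_of_pos lb]
        constructor
        · intro h
          by_contra hcon
          push Not at hcon
          nlinarith
        · intro h
          nlinarith
  have i7 : Ph t '' ball 0 6 = ball 0 (rb t) := by
    ext y
    constructor
    · rintro ⟨x, hx, rfl⟩
      rw [mem_ball_zero_iff] at hx ⊢
      exact (claim x).2 hx
    · intro hy
      obtain ⟨x, rfl⟩ := hb.2 y
      rw [mem_ball_zero_iff] at hy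
      refine ⟨x, ?_, rfl⟩
      rw [mem_ball_zero_iff]
      exact (claim x).1 hy
  refine ⟨?_, ?_, ?_⟩
  · show Ph t '' (ball P0 2 ∪ ball 0 3) = _
    rw [Set.image_union, i1, i3]
  · show Ph t '' (ball 0 6 \ closedBall 0 3) = _
    rw [Set.image_sdiff hb.1, i7, i4]
  · rw [Set.image_union, Set.image_union, i2, i5, i6]

end Pool.Agent.W597.KU
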